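import Pool.Agent.TH882.I9

/-!
# Goldbach representations with an isolated prime, in the right number

For every `Λ > 0` there is `c > 0` such that almost all even integers `N` have at least
`c N ^ 2 / (φ(N) (log N) ^ 2)` representations `N = p + q` as an ordered sum of two primes in which
there is no other prime at distance at most `Λ log N` from `p`.
-/

set_option autoImplicit false

open Finset Filter Topology

namespace Pool.Agent.Results.MP_dd84fd_nt.IsolatedPrimes

/-- `p` is the only prime at distance at most `R` from `p`. -/
def Isolated (R : ℝ) (p : ℕ) : Prop := ∀ q : ℕ, q.Prime → |(q : ℝ) - p| ≤ R → q = p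

open Classical in
/-- The ordered representations `N = p + q` as a sum of two primes in which `p` is isolated, the
distance to all other primes being larger than `R`. -/
noncomputable def representations (R : ℝ) (N : ℕ) : Finset (ℕ × ℕ) :=
  (antidiagonal N).filter (fun x => x.1.Prime ∧ x.2.Prime ∧ Isolated R x.1)

open Classical in
/-- The even integers `N` in `[1, x]` with fewer than `c N ^ 2 / (φ(N) (log N) ^ 2)`
representations in which no other prime is at distance at most `Λ log N` from `p`. -/
noncomputable def exceptions (Λ c : ℝ) (x : ℕ) : Finset ℕ :=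
  (Icc 1 x).filter (fun N => Even N ∧ ((representations (Λ * Real.log N) N).card : ℝ) <
    c * ((N : ℝ) ^ 2 / (Nat.totient N * Real.log N ^ 2)))

/-- **Goldbach representations with an isolated prime.** For every `Λ > 0` there is `c > 0` such that
all even integers `N ≤ x`, with at most `o(x)` exceptions, have at least
`c N ^ 2 / (φ(N) (log N) ^ 2)` representations `N = p + q` as a sum of two primes in which `p` is the
only prime at distance at most `Λ log N` from `p`. -/
theorem result (Λ : ℝ) (hΛ : 0 < Λ) : ∃ c : ℝ, 0 < c ∧
    Tendsto (fun x : ℕ => ((exceptions Λ c x).card : ℝ) / x) atTop (𝓝 0) := by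
  classical
  obtain ⟨c, hc, h⟩ := Pool.Agent.TH882.IS.goldbach_iso Λ hΛ
  refine ⟨c, hc, ?_⟩
  refine squeeze_zero (fun x => by positivity) (fun x => ?_) h
  apply div_le_div_of_nonneg_right _ (by positivity)
  apply Nat.cast_le.2
  apply card_le_card
  intro N hN
  unfold exceptions at hN
  rw [mem_filter] at hN ⊢
  obtain ⟨hN1, hNe, hNl⟩ := hN
  refine ⟨hN1, hNe, lt_of_le_of_lt ?_ hNl⟩
  apply Nat.cast_le.2
  refine card_le_card_of_injOn (fun p : ℕ => (p, N - p)) ?_ ?_
  · intro p hp
    unfold Pool.Agent.TH882.IS.RG Pool.Agent.TH882.IS.Isol at hp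
    rw [mem_coe, mem_filter, mem_range] at hp
    obtain ⟨hp1, hp2, hp3, hp4⟩ := hp
    unfold representations
    rw [mem_coe, mem_filter, HasAntidiagonal.mem_antidiagonal]
    refine ⟨by simp only; omega, hp2, hp3, ?_⟩
    intro q hq h1
    rw [abs_le] at h1
    exact hp4 q hq (by linarith [h1.2]) (by linarith [h1.1])
  · intro p _ p' _ hpp
    exact congrArg Prod.fst hpp

end Pool.Agent.Results.MP_dd84fd_nt.IsolatedPrimes
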